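import Mathlib
import Pool.Agent.Helper54.Taut.TorusCrit
import Pool.Agent.Helper96.TautA
import Pool.Agent.Helper53.TautB
import Pool.Agent.Helper81.Taut.TautD

/-!
MP_106964_gt, Q1: tautness does not transfer through totally geodesic submanifolds of compact
symmetric spaces.

The example is `N₀ = S² × S²`, `N₁ = C × C` (a flat torus, `C` a great circle) and `M` the
diagonal circle of `C × C`.
-/

set_option autoImplicit false

open Set Filter MeasureTheory Module Topology
open scoped ContDiff RealInnerProductSpace Cardinal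

namespace Pool.Agent.Results.MP_106964_gt.TautTransferFails

open Pool.Agent.Helper54.Taut

/-- There are a compact symmetric space `N₀`, a compact totally geodesic submanifold `N₁` of `N₀`
and a compact submanifold `M` of `N₁` such that `M` is taut in `N₁` but not taut in `N₀`. -/
theorem result :
    ∃ (V : Type) (_ : NormedAddCommGroup V) (_ : InnerProductSpace ℝ V)
      (_ : FiniteDimensional ℝ V) (N₀ N₁ M : Set V),
      (IsCompactSymmetricSpace N₀ ∧ IsSubmanifold 4 N₀) ∧
      (IsCompactTotallyGeodesic N₀ N₁ ∧ IsSubmanifold 2 N₁) ∧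
      (IsCompact M ∧ IsConnected M ∧ IsSubmanifold 1 M ∧ M ⊆ N₁) ∧
      IsTaut N₁ M ∧ ¬ IsTaut N₀ M := by
  refine ⟨V6, inferInstance, inferInstance, inferInstance, NN0, NN1, MM,
    ⟨Pool.Agent.Helper96.TautA.NN0_symm, Pool.Agent.Helper96.TautA.NN0_dim⟩,
    ⟨Pool.Agent.Helper96.TautA.NN1_geod, Pool.Agent.Helper96.TautA.NN1_dim⟩,
    ⟨Pool.Agent.Helper96.TautA.MM_compact.1, Pool.Agent.Helper96.TautA.MM_compact.2.1,
      Pool.Agent.Helper96.TautA.MM_dim, Pool.Agent.Helper96.TautA.MM_compact.2.2⟩,
    ⟨ℚ, inferInstance, fun p hp _ => torus ℚ p hp⟩, ?_⟩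
  rintro ⟨F, _, h⟩
  have h0 := h pp pp_mem Pool.Agent.Helper53.Taut.pp_not_focal 0
  have := Pool.Agent.Helper81.TautD.pconn
  rw [betti_zero_of_pathConnected] at h0
  have h2 := two_le
  rw [h0] at h2
  norm_num at h2

end Pool.Agent.Results.MP_106964_gt.TautTransferFails
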